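import Pool.Agent.H74R2.WT.Stmts

set_option autoImplicit false

open MeasureTheory Set

namespace H74R2.WT

noncomputable section

/-- concatenation of finitely many lists -/
theorem D2_comb {K : Subfield ℝ} (s : Finset (ℝ × ℝ)) (l : ℝ × ℝ → List (HT K)) :
    ∃ ts : List (HT K), ∀ z : ℂ, (ts.map (fun t => ind t.set z)).sum =
      ∑ p ∈ s, ((l p).map (fun t => ind t.set z)).sum := by
  classical
  induction s using Finset.induction_on with
  | empty => exact ⟨[], fun z => by simp⟩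
  | insert a s ha ih =>
    obtain ⟨ts, hts⟩ := ih
    refine ⟨l a ++ ts, fun z => ?_⟩
    rw [Finset.sum_insert ha, List.map_append, List.sum_append, hts]

theorem D2_zero {K : Subfield ℝ} (l : List (HT K)) (y0 y1 : ℝ)
    (hl : ∀ t ∈ l, t.a = y0 ∧ t.b = y1) (x y : ℝ) (hy : y ∉ Ioo y0 y1) :
    (l.map (fun t => ind t.set (⟨x, y⟩ : ℂ))).sum = 0 := by
  refine List.sum_eq_zero fun r hr => ?_
  obtain ⟨t, ht, rfl⟩ := List.mem_map.1 hr
  unfold ind
  rw [if_neg]
  rintro ⟨⟨h1, h2⟩, -⟩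
  rw [(hl t ht).1] at h1
  rw [(hl t ht).2] at h2
  exact hy ⟨h1, h2⟩

theorem D2_ind_zero (G : Set ℂ) (R : ℝ) (hR : ∀ z ∈ G, ‖z‖ ≤ R) (x y : ℝ)
    (hy : y ≤ -(R + 1) ∨ R + 1 ≤ y) : ind G ⟨x, y⟩ = 0 := by
  unfold ind
  rw [if_neg]
  intro h
  have h1 := hR _ h
  have h2 : |y| ≤ ‖(⟨x, y⟩ : ℂ)‖ := Complex.abs_im_le_norm ⟨x, y⟩
  have h3 := abs_le.1 (h2.trans h1)
  rcases hy with h4 | h4 <;> linarith [h3.1, h3.2]

/-- task D2 -/
theorem t_D2 : T_D2 := by
  classical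
  intro hD1 K G hG
  obtain ⟨L, hL1, hL2⟩ := hG.lines
  obtain ⟨R, hR⟩ := hG.bdd.exists_norm_le
  -- the non-horizontal lines
  let Fs : Set (K × ℝ) := {f | ∃ q ∈ L, q.1 ≠ 0 ∧ (f.1 : ℝ) = -(q.2.1 / q.1) ∧ f.2 = q.2.2 / q.1}
  have hFs : Fs.Finite := by
    have h1 : ((fun f : K × ℝ => ((f.1 : ℝ), f.2)) '' Fs).Finite := by
      refine (L.finite_toSet.image
        (fun q : ℝ × ℝ × ℝ => (-(q.2.1 / q.1), q.2.2 / q.1))).subset ?_
      rintro _ ⟨f, ⟨q, hq, -, h2, h3⟩, rfl⟩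
      exact ⟨q, hq, by simp only [h2, h3]⟩
    refine Set.Finite.of_finite_image h1 ?_
    rintro ⟨a, b⟩ - ⟨c, d⟩ - h
    simp only [Prod.mk.injEq] at h
    exact Prod.ext (Subtype.ext h.1) h.2
  let F : Finset (K × ℝ) := hFs.toFinset
  have hF : ∀ f, f ∈ F ↔ ∃ q ∈ L, q.1 ≠ 0 ∧ (f.1 : ℝ) = -(q.2.1 / q.1) ∧ f.2 = q.2.2 / q.1 := by
    intro f
    exact hFs.mem_toFinset
  -- the exceptional heights
  let Y : Finset ℝ := (L.image (fun q => q.2.2 / q.2.1)) ∪
    ((F ×ˢ F).image (fun p => (p.2.2 - p.1.2) / ((p.1.1 : ℝ) - p.2.1))) ∪ {-(R + 1), R + 1}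
  have hY1 : ∀ q ∈ L, q.2.2 / q.2.1 ∈ Y := fun q hq =>
    Finset.mem_union_left _ (Finset.mem_union_left _ (Finset.mem_image_of_mem _ hq))
  have hY2 : ∀ f ∈ F, ∀ g ∈ F, (g.2 - f.2) / ((f.1 : ℝ) - g.1) ∈ Y := fun f hf g hg =>
    Finset.mem_union_left _ (Finset.mem_union_right _
      (Finset.mem_image.2 ⟨(f, g), Finset.mem_product.2 ⟨hf, hg⟩, rfl⟩))
  have hY3 : -(R + 1) ∈ Y := Finset.mem_union_right _ (by simp)
  have hY4 : R + 1 ∈ Y := Finset.mem_union_right _ (by simp)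
  -- one strip
  have hstrip : ∀ p : ℝ × ℝ, ∃ ts : List (HT K), (∀ t ∈ ts, t.a = p.1 ∧ t.b = p.2) ∧
      ((p.1 < p.2 ∧ ∀ y ∈ Y, y ∉ Ioo p.1 p.2) → ∀ y ∈ Ioo p.1 p.2,
        {x : ℝ | ind G ⟨x, y⟩ ≠ (ts.map (fun t => ind t.set ⟨x, y⟩)).sum}.Finite) ∧
      (¬ (p.1 < p.2 ∧ ∀ y ∈ Y, y ∉ Ioo p.1 p.2) → ts = []) := by
    rintro ⟨y0, y1⟩
    by_cases hp : y0 < y1 ∧ ∀ y ∈ Y, y ∉ Ioo y0 y1
    · have hA : ∀ f ∈ F, ∀ g ∈ F, f ≠ g → ∀ y ∈ Ioo y0 y1,
          f.2 + (f.1 : ℝ) * y ≠ g.2 + (g.1 : ℝ) * y := by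
        intro f hf g hg hfg y hy heq
        by_cases hs : (f.1 : ℝ) = g.1
        · refine hfg (Prod.ext (Subtype.ext hs) ?_)
          rw [hs] at heq
          linarith
        · refine hp.2 _ (hY2 f hf g hg) ?_
          have h1 : (g.2 - f.2) / ((f.1 : ℝ) - g.1) = y := by
            rw [div_eq_iff (sub_ne_zero.2 hs)]
            linarith
          rw [h1]
          exact hy
      have hB : ∀ z ∈ frontier G, z.im ∈ Ioo y0 y1 →
          ∃ f ∈ F, z.re = f.2 + (f.1 : ℝ) * z.im := by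
        intro z hz hzi
        obtain ⟨q, hq, hqz⟩ := hL2 hz
        by_cases h0 : q.1 = 0
        · exfalso
          have h1 : q.2.1 ≠ 0 := by
            rcases (hL1 q hq).2.2 with h | h
            · exact absurd h0 h
            · exact h
          have h2 : q.2.2 / q.2.1 = z.im := by
            rw [div_eq_iff h1]
            rw [h0] at hqz
            linarith
          exact hp.2 _ (hY1 q hq) (by rw [h2]; exact hzi)
        · have hk : -(q.2.1 / q.1) ∈ K :=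
            K.neg_mem (K.div_mem (hL1 q hq).2.1 (hL1 q hq).1)
          refine ⟨(⟨-(q.2.1 / q.1), hk⟩, q.2.2 / q.1), (hF _).2 ⟨q, hq, h0, rfl, rfl⟩, ?_⟩
          show z.re = q.2.2 / q.1 + -(q.2.1 / q.1) * z.im
          rw [← hqz]
          field_simp
          ring
      obtain ⟨ts, h1, h2⟩ := hD1 K y0 y1 hp.1 F G hG.bdd hA hB
      exact ⟨ts, h1, fun _ => h2, fun h => absurd hp h⟩
    · exact ⟨[], by simp, fun h => absurd h hp, fun _ => rfl⟩
  choose l hl1 hl2 hl3 using hstrip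
  obtain ⟨ts, hts⟩ := D2_comb (Y ×ˢ Y) l
  refine ⟨ts, Y, fun y hy => ?_⟩
  by_cases hlow : (Y.filter (fun t => t < y)).Nonempty
  · by_cases hup : (Y.filter (fun t => y < t)).Nonempty
    · set y0 := (Y.filter (fun t => t < y)).max' hlow with hy0
      set y1 := (Y.filter (fun t => y < t)).min' hup with hy1
      have h0 := Finset.mem_filter.1 (Finset.max'_mem _ hlow)
      have h1 := Finset.mem_filter.1 (Finset.min'_mem _ hup)
      rw [← hy0] at h0
      rw [← hy1] at h1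
      have hcons : y0 < y1 ∧ ∀ t ∈ Y, t ∉ Ioo y0 y1 := by
        refine ⟨h0.2.trans h1.2, fun t ht hti => ?_⟩
        rcases lt_trichotomy t y with h | h | h
        · have := Finset.le_max' (Y.filter (fun s => s < y)) t (Finset.mem_filter.2 ⟨ht, h⟩)
          exact absurd hti.1 (not_lt.2 this)
        · exact hy (h ▸ ht)
        · have := Finset.min'_le (Y.filter (fun s => y < s)) t (Finset.mem_filter.2 ⟨ht, h⟩)
          exact absurd hti.2 (not_lt.2 this)
      have hyI : y ∈ Ioo y0 y1 := ⟨h0.2, h1.2⟩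
      have hkey : ∀ x : ℝ, (ts.map (fun t => ind t.set (⟨x, y⟩ : ℂ))).sum =
          ((l (y0, y1)).map (fun t => ind t.set (⟨x, y⟩ : ℂ))).sum := by
        intro x
        rw [hts]
        refine Finset.sum_eq_single_of_mem (y0, y1) (Finset.mem_product.2 ⟨h0.1, h1.1⟩) ?_
        rintro ⟨u, v⟩ hp hne
        obtain ⟨hu, hv⟩ := Finset.mem_product.1 hp
        by_cases hyy : y ∈ Ioo u v
        · by_cases hc : u < v ∧ ∀ t ∈ Y, t ∉ Ioo u v
          · exfalso
            apply hne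
            have e1 : u = y0 := by
              have h2 := Finset.le_max' (Y.filter (fun s => s < y)) u (Finset.mem_filter.2 ⟨hu, hyy.1⟩)
              rcases h2.lt_or_eq with h3 | h3
              · exact absurd ⟨h3, h0.2.trans hyy.2⟩ (hc.2 y0 h0.1)
              · exact h3
            have e2 : v = y1 := by
              have h2 := Finset.min'_le (Y.filter (fun s => y < s)) v (Finset.mem_filter.2 ⟨hv, hyy.2⟩)
              rcases h2.lt_or_eq with h3 | h3
              · exact absurd ⟨hyy.1.trans h1.2, h3⟩ (hc.2 y1 h1.1)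
              · exact h3.symm
            rw [e1, e2]
          · rw [hl3 (u, v) hc]
            simp
        · exact D2_zero _ u v (hl1 (u, v)) x y hyy
      simp only [hkey]
      exact hl2 (y0, y1) hcons y hyI
    · have h1 : R + 1 ≤ y := by
        by_contra h
        exact hup ⟨_, Finset.mem_filter.2 ⟨hY4, not_le.1 h⟩⟩
      have hz : ∀ x : ℝ, (ts.map (fun t => ind t.set (⟨x, y⟩ : ℂ))).sum = 0 := by
        intro x
        rw [hts]
        refine Finset.sum_eq_zero fun p hp => ?_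
        refine D2_zero _ p.1 p.2 (hl1 p) x y fun hyy => hup ⟨p.2, Finset.mem_filter.2
          ⟨(Finset.mem_product.1 hp).2, hyy.2⟩⟩
      convert Set.finite_empty
      rw [Set.eq_empty_iff_forall_notMem]
      intro x hx
      apply hx
      rw [hz, D2_ind_zero G R hR x y (Or.inr h1)]
  · have h1 : y ≤ -(R + 1) := by
      by_contra h
      exact hlow ⟨_, Finset.mem_filter.2 ⟨hY3, not_le.1 h⟩⟩
    have hz : ∀ x : ℝ, (ts.map (fun t => ind t.set (⟨x, y⟩ : ℂ))).sum = 0 := by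
      intro x
      rw [hts]
      refine Finset.sum_eq_zero fun p hp => ?_
      refine D2_zero _ p.1 p.2 (hl1 p) x y fun hyy => hlow ⟨p.1, Finset.mem_filter.2
        ⟨(Finset.mem_product.1 hp).1, hyy.1⟩⟩
    convert Set.finite_empty
    rw [Set.eq_empty_iff_forall_notMem]
    intro x hx
    apply hx
    rw [hz, D2_ind_zero G R hR x y (Or.inl h1)]

end

end H74R2.WT
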